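import Pool.Agent.H34.EV.Folk
import Pool.Agent.H34.EU.Inf

/-!
# [H34 EV SIM] One dilation for all nonsingular integer matrices

`sim_count`: if almost all `y` have a good multiplier for all the weights `∑ i ∈ J j, c i`, then almost all `a` have a multiplier which is
good for all `M a`, `M` a nonsingular integer matrix with entries at most `N`: colour the nonempty `I` by a matrix `M` such that the
multiplier `∑ i ∈ I, c i` is bad for `M a`, and use the finite unions theorem.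
-/

set_option autoImplicit false

namespace Pool.Agent.H34.EV

open Finset

open Classical in
/-- the nonsingular integer matrices with entries at most `N` -/
noncomputable def mats (k N : ℕ) : Finset (Matrix (Fin k) (Fin k) ℤ) :=
  ((Fintype.piFinset (fun _ : Fin k => Fintype.piFinset (fun _ : Fin k => Icc (-(N : ℤ)) N))).image
    (fun f => Matrix.of f)).filter (fun M : Matrix (Fin k) (Fin k) ℤ => M.det ≠ 0)

theorem mem_mats {k N : ℕ} {M : Matrix (Fin k) (Fin k) ℤ} : M ∈ mats k N ↔ (∀ i j, |M i j| ≤ N) ∧ M.det ≠ 0 := by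
  classical
  unfold mats
  rw [mem_filter, mem_image]
  refine and_congr ?_ Iff.rfl
  constructor
  · rintro ⟨f, hf, rfl⟩ i j
    rw [Fintype.mem_piFinset] at hf
    have h1 := hf i
    rw [Fintype.mem_piFinset] at h1
    have h2 := mem_Icc.1 (h1 j)
    rw [Matrix.of_apply]
    exact abs_le.2 h2
  · intro h
    refine ⟨fun i j => M i j, ?_, rfl⟩
    rw [Fintype.mem_piFinset]
    intro i
    rw [Fintype.mem_piFinset]
    intro j
    exact mem_Icc.2 (abs_le.1 (h i j))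

theorem one_mem_mats {k N : ℕ} (hN : 1 ≤ N) : (1 : Matrix (Fin k) (Fin k) ℤ) ∈ mats k N := by
  refine mem_mats.2 ⟨fun i j => ?_, by rw [Matrix.det_one]; exact one_ne_zero⟩
  rw [Matrix.one_apply]
  split_ifs
  · rw [abs_one]
    exact_mod_cast hN
  · rw [abs_zero]
    exact Nat.cast_nonneg _

/-- the corner of a cube which contains the image of a cube -/
def cor {k : ℕ} (N : ℕ) (M : Matrix (Fin k) (Fin k) ℤ) (b : Fin k → ℤ) (z : ℕ) (i : Fin k) : ℤ :=
  M.mulVec b i - ((k * N * z : ℕ) : ℤ) - 1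

/-- the image of a cube -/
theorem image_cube {k N : ℕ} {M : Matrix (Fin k) (Fin k) ℤ} (hM : M ∈ mats k N) (b a : Fin k → ℤ) (z : ℕ) (hz : 1 ≤ z)
    (ha : ∀ j, a j ∈ Ioc (b j) (b j + z)) (i : Fin k) :
    M.mulVec a i ∈ Ioc (cor N M b z i) (cor N M b z i + (((2 * k * N + 1) * z : ℕ) : ℤ)) := by
  have hM1 := (mem_mats.1 hM).1
  have h1 : M.mulVec a i - M.mulVec b i = ∑ j, M i j * (a j - b j) := by
    rw [Matrix.mulVec, Matrix.mulVec, dotProduct, dotProduct, ← sum_sub_distrib]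
    refine sum_congr rfl fun j _ => ?_
    ring
  have h2 : |M.mulVec a i - M.mulVec b i| ≤ ((k * N * z : ℕ) : ℤ) := by
    rw [h1]
    refine (abs_sum_le_sum_abs _ _).trans ?_
    have h3 : ∀ j ∈ (univ : Finset (Fin k)), |M i j * (a j - b j)| ≤ ((N * z : ℕ) : ℤ) := by
      intro j _
      have h4 := mem_Ioc.1 (ha j)
      rw [abs_mul]
      push_cast
      refine mul_le_mul (hM1 i j) ?_ (abs_nonneg _) (Nat.cast_nonneg _)
      rw [abs_le]
      constructor
      · have : (0 : ℤ) ≤ z := Nat.cast_nonneg _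
        linarith [h4.1]
      · linarith [h4.2]
    refine (sum_le_card_nsmul _ _ _ h3).trans (le_of_eq ?_)
    rw [card_univ, Fintype.card_fin, nsmul_eq_mul]
    push_cast
    ring
  have h5 := abs_le.1 h2
  have hz' : (1 : ℤ) ≤ z := by exact_mod_cast hz
  rw [mem_Ioc]
  unfold cor
  constructor
  · linarith [h5.1]
  · have h6 : (((2 * k * N + 1) * z : ℕ) : ℤ) = ((k * N * z : ℕ) : ℤ) + ((k * N * z : ℕ) : ℤ) + z := by
      push_cast
      ring
    rw [h6]
    linarith [h5.2]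

theorem mats_inj {k N : ℕ} {M : Matrix (Fin k) (Fin k) ℤ} (hM : M ∈ mats k N) : Function.Injective (fun a => M.mulVec a) := by
  intro a a' h
  have h1 : M.mulVec (a - a') = 0 := by
    rw [Matrix.mulVec_sub]
    exact sub_eq_zero.2 h
  have h2 := Matrix.eq_zero_of_mulVec_eq_zero (mem_mats.1 hM).2 h1
  exact sub_eq_zero.1 h2

open Classical in
/-- **simultaneous multipliers** -/
theorem sim_count {k n₀ n N : ℕ} (hN : 1 ≤ N)
    (hn : ∀ C : Finset (Fin n) → {M // M ∈ mats k N}, ∃ J : Fin n₀ → Finset (Fin n), (∀ j, (J j).Nonempty) ∧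
      (∀ i j, i ≠ j → Disjoint (J i) (J j)) ∧ ∃ q, ∀ I : Finset (Fin n₀), I.Nonempty → C (I.biUnion J) = q)
    (G : ℕ → (Fin k → ℤ) → Prop) (c : Fin n → ℕ) (E : ℝ) (z : ℕ) (hz : 1 ≤ z) (b : Fin k → ℤ)
    (H : ∀ J : Fin n₀ → Finset (Fin n), (∀ j, (J j).Nonempty) → ∀ M ∈ mats k N,
      (((Fintype.piFinset (fun i => Ioc (cor N M b z i) (cor N M b z i + (((2 * k * N + 1) * z : ℕ) : ℤ)))).filter
        (fun y => ¬ ∃ I : Finset (Fin n₀), I.Nonempty ∧ G (∑ j ∈ I, ∑ i ∈ J j, c i) y)).card : ℝ) ≤ E) :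
    (((Fintype.piFinset (fun j => Ioc (b j) (b j + z))).filter (fun a => ¬ ∃ I : Finset (Fin n), I.Nonempty ∧
      ∀ M ∈ mats k N, G (∑ i ∈ I, c i) (M.mulVec a))).card : ℝ) ≤ (((2 ^ n) ^ n₀ : ℕ) : ℝ) * (mats k N).card * E := by
  obtain ⟨Ex, hEx⟩ : ∃ Ex : (Fin n₀ → Finset (Fin n)) → Matrix (Fin k) (Fin k) ℤ → Finset (Fin k → ℤ), Ex = fun J M =>
      (Fintype.piFinset (fun i => Ioc (cor N M b z i) (cor N M b z i + (((2 * k * N + 1) * z : ℕ) : ℤ)))).filter
        (fun y => ¬ ∃ I : Finset (Fin n₀), I.Nonempty ∧ G (∑ j ∈ I, ∑ i ∈ J j, c i) y) := ⟨_, rfl⟩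
  obtain ⟨Js, hJs⟩ : ∃ Js : Finset (Fin n₀ → Finset (Fin n)), Js = univ.filter (fun J => ∀ j, (J j).Nonempty) := ⟨_, rfl⟩
  obtain ⟨Q, hQ⟩ : ∃ Q : Finset (Fin k → ℤ), Q = Fintype.piFinset (fun j => Ioc (b j) (b j + z)) := ⟨_, rfl⟩
  rw [← hQ]
  have hsub : Q.filter (fun a => ¬ ∃ I : Finset (Fin n), I.Nonempty ∧ ∀ M ∈ mats k N, G (∑ i ∈ I, c i) (M.mulVec a)) ⊆
      (Js ×ˢ mats k N).biUnion (fun p => Q.filter (fun a => p.2.mulVec a ∈ Ex p.1 p.2)) := by
    intro a ha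
    rw [mem_filter] at ha
    obtain ⟨haQ, hbad⟩ := ha
    push Not at hbad
    have hC : ∀ I : Finset (Fin n), ∃ M : {M // M ∈ mats k N}, I.Nonempty → ¬ G (∑ i ∈ I, c i) (M.1.mulVec a) := by
      intro I
      by_cases hI : I.Nonempty
      · obtain ⟨M, hM, hM2⟩ := hbad I hI
        exact ⟨⟨M, hM⟩, fun _ => hM2⟩
      · exact ⟨⟨1, one_mem_mats hN⟩, fun h => absurd h hI⟩
    choose C hC using hC
    obtain ⟨J, hJ1, hJ2, q, hq⟩ := hn C
    rw [mem_biUnion]
    refine ⟨(J, q.1), mem_product.2 ⟨?_, q.2⟩, mem_filter.2 ⟨haQ, ?_⟩⟩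
    · rw [hJs, mem_filter]
      exact ⟨mem_univ _, hJ1⟩
    · rw [hEx]
      dsimp only
      rw [mem_filter, Fintype.mem_piFinset]
      rw [hQ, Fintype.mem_piFinset] at haQ
      refine ⟨fun i => image_cube q.2 b a z hz haQ i, ?_⟩
      rintro ⟨I, hI, hGI⟩
      have hne : (I.biUnion J).Nonempty := by
        obtain ⟨j, hj⟩ := hI
        obtain ⟨i, hi⟩ := hJ1 j
        exact ⟨i, mem_biUnion.2 ⟨j, hj, hi⟩⟩
      apply hC _ hne
      rw [hq I hI, sum_biUnion (fun i _ j _ hij => hJ2 i j hij)]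
      exact hGI
  have h1 : (((Js ×ˢ mats k N).biUnion (fun p => Q.filter (fun a => p.2.mulVec a ∈ Ex p.1 p.2))).card : ℝ) ≤
      ∑ p ∈ Js ×ˢ mats k N, ((Q.filter (fun a => p.2.mulVec a ∈ Ex p.1 p.2)).card : ℝ) := by
    exact_mod_cast card_biUnion_le
  refine (Nat.cast_le.2 (card_le_card hsub)).trans (h1.trans ?_)
  have h2 : ∀ p ∈ Js ×ˢ mats k N, ((Q.filter (fun a => p.2.mulVec a ∈ Ex p.1 p.2)).card : ℝ) ≤ E := by
    intro p hp
    obtain ⟨hp1, hp2⟩ := mem_product.1 hp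
    rw [hJs, mem_filter] at hp1
    have h3 := H p.1 hp1.2 p.2 hp2
    refine le_trans (Nat.cast_le.2 ?_) h3
    refine card_le_card_of_injOn (fun a => p.2.mulVec a) ?_ (fun a _ a' _ h => mats_inj hp2 h)
    intro a ha
    rw [mem_coe, mem_filter] at ha
    have h4 := ha.2
    rw [hEx] at h4
    rw [mem_coe]
    exact h4
  refine (sum_le_card_nsmul _ _ _ h2).trans ?_
  rw [nsmul_eq_mul]
  have hE0 : 0 ≤ E := by
    refine le_trans (Nat.cast_nonneg _) (H (fun _ => univ) (fun j => ?_) 1 (one_mem_mats hN))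
    rw [univ_nonempty_iff]
    obtain ⟨J, hJ1, -, -⟩ := hn (fun _ => ⟨1, one_mem_mats hN⟩)
    obtain ⟨i, -⟩ := hJ1 j
    exact ⟨i⟩
  refine mul_le_mul_of_nonneg_right ?_ hE0
  rw [card_product]
  push_cast
  refine mul_le_mul_of_nonneg_right ?_ (Nat.cast_nonneg _)
  have h5 : Js.card ≤ (2 ^ n) ^ n₀ := by
    refine (card_le_univ _).trans (le_of_eq ?_)
    rw [Fintype.card_fun, Fintype.card_fin, Fintype.card_finset, Fintype.card_fin]
  exact_mod_cast h5

end Pool.Agent.H34.EV
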