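import Mathlib

/-!
# [H34 EV AFF] Affinely independent sets of integer points and nonsingular matrices

`aff_matrix`: if `F` is an affinely independent set of points of the box `[-N, N] ^ k` and `x₀ ∈ F`, then `F - x₀` consists of `0` and of
some of the rows of a nonsingular integer matrix with entries at most `2 N` in absolute value.
-/

set_option autoImplicit false

namespace Pool.Agent.H34.EV

open Finset

/-- integer vectors as rational vectors -/
def rat {k : ℕ} (x : Fin k → ℤ) : Fin k → ℚ := fun i => (x i : ℚ)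

theorem rat_injective {k : ℕ} : Function.Injective (rat (k := k)) := by
  intro x y h
  funext i
  have h1 := congrFun h i
  unfold rat at h1
  exact_mod_cast h1

theorem rat_sub {k : ℕ} (x y : Fin k → ℤ) : rat (x - y) = rat x - rat y := by
  funext i
  simp [rat]

theorem aff_matrix {k N : ℕ} (hN : 1 ≤ N) (F : Finset (Fin k → ℤ)) (x₀ : Fin k → ℤ) (hx₀ : x₀ ∈ F)
    (hF : ∀ x ∈ F, ∀ i, |x i| ≤ N) (hA : AffineIndependent ℚ (fun x : F => rat (x : Fin k → ℤ))) :
    ∃ M : Matrix (Fin k) (Fin k) ℤ, (∀ i j, |M i j| ≤ ((2 * N : ℕ) : ℤ)) ∧ M.det ≠ 0 ∧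
      ∃ J : Finset (Fin (k + 1)), F.image (fun x => x - x₀) = J.image (Fin.cons 0 M : Fin (k + 1) → Fin k → ℤ) := by
  classical
  -- the differences are linearly independent
  have h1 := (affineIndependent_iff_linearIndependent_vsub ℚ (fun x : F => rat (x : Fin k → ℤ)) ⟨x₀, hx₀⟩).1 hA
  obtain ⟨S, hS⟩ : ∃ S : Set (Fin k → ℚ), S = {v | ∃ x ∈ F, x ≠ x₀ ∧ v = rat (x - x₀)} := ⟨_, rfl⟩
  have hSind : LinearIndependent ℚ (Subtype.val : S → Fin k → ℚ) := by
    have h2 : ∀ v : S, ∃ x : {x : F // x ≠ ⟨x₀, hx₀⟩}, (v : Fin k → ℚ) = rat ((x.1 : Fin k → ℤ)) - rat x₀ := by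
      rintro ⟨v, hv⟩
      rw [hS] at hv
      obtain ⟨x, hx, hne, rfl⟩ := hv
      exact ⟨⟨⟨x, hx⟩, fun h => hne (congrArg Subtype.val h)⟩, rat_sub _ _⟩
    choose g hg using h2
    have hgi : Function.Injective g := by
      intro v w h
      apply Subtype.ext
      rw [hg, hg, h]
    have h3 := h1.comp g hgi
    have h4 : (Subtype.val : S → Fin k → ℚ) = (fun i : {x : F // x ≠ ⟨x₀, hx₀⟩} =>
        (rat ((i.1 : F) : Fin k → ℤ) -ᵥ rat x₀ : Fin k → ℚ)) ∘ g := by
      funext v
      rw [hg]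
      rfl
    rw [h4]
    exact h3
  -- add unit vectors
  obtain ⟨T, hT⟩ : ∃ T : Set (Fin k → ℚ), T = S ∪ Set.range (fun i : Fin k => (Pi.single i 1 : Fin k → ℚ)) := ⟨_, rfl⟩
  obtain ⟨b, hbT, hbS, hspan, hbind0⟩ := exists_linearIndepOn_id_extension (K := ℚ) (s := S) (t := T) hSind
    (by rw [hT]; exact Set.subset_union_left)
  have hbind : LinearIndependent ℚ (Subtype.val : b → Fin k → ℚ) := hbind0
  have htop : ⊤ ≤ Submodule.span ℚ (Set.range (Subtype.val : b → Fin k → ℚ)) := by
    rw [Subtype.range_coe, ← (Pi.basisFun ℚ (Fin k)).span_eq]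
    refine Submodule.span_le.2 ?_
    rintro _ ⟨i, rfl⟩
    apply hspan
    rw [hT]
    right
    exact ⟨i, by simp⟩
  let bs : Module.Basis b ℚ (Fin k → ℚ) := Module.Basis.mk hbind htop
  have hfin : Finite b := Module.Finite.finite_basis bs
  have := Fintype.ofFinite b
  have hcard : Fintype.card b = k := by
    have h2 := Module.finrank_eq_card_basis bs
    rw [Module.finrank_fin_fun] at h2
    exact h2.symm
  let e : Fin k ≃ b := (Fintype.equivFinOfCardEq hcard).symm
  -- integer vectors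
  have hint : ∀ v : b, ∃ w : Fin k → ℤ, rat w = v ∧ (∀ i, |w i| ≤ ((2 * N : ℕ) : ℤ)) := by
    rintro ⟨v, hv⟩
    have h2 := hbT hv
    rw [hT] at h2
    rcases h2 with h2 | h2
    · rw [hS] at h2
      obtain ⟨x, hx, -, rfl⟩ := h2
      refine ⟨x - x₀, rfl, fun i => ?_⟩
      rw [Pi.sub_apply]
      have h3 := hF x hx i
      have h4 := hF x₀ hx₀ i
      rw [abs_le] at h3 h4 ⊢
      push_cast
      constructor <;> linarith [h3.1, h3.2, h4.1, h4.2]
    · obtain ⟨j, rfl⟩ := h2
      refine ⟨Pi.single j 1, ?_, fun i => ?_⟩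
      · funext i
        unfold rat
        dsimp only
        rcases eq_or_ne i j with rfl | hij
        · rw [Pi.single_eq_same, Pi.single_eq_same]
          norm_num
        · rw [Pi.single_eq_of_ne hij, Pi.single_eq_of_ne hij]
          norm_num
      · rcases eq_or_ne i j with rfl | hij
        · rw [Pi.single_eq_same, abs_one]
          push_cast
          have : (1 : ℤ) ≤ N := by exact_mod_cast hN
          linarith
        · rw [Pi.single_eq_of_ne hij, abs_zero]
          positivity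
  choose w hw1 hw2 using hint
  obtain ⟨M, hM⟩ : ∃ M : Matrix (Fin k) (Fin k) ℤ, M = Matrix.of (fun i => w (e i)) := ⟨_, rfl⟩
  have hMi : ∀ i, M i = w (e i) := by
    intro i
    rw [hM]
    rfl
  refine ⟨M, fun i j => by rw [hMi]; exact hw2 _ _, ?_, ?_⟩
  · -- the determinant
    intro hdet
    have h2 : LinearIndependent ℚ (fun i : Fin k => (fun j => ((w (e i) j : ℤ) : ℚ))) := by
      have h3 := hbind.comp e e.injective
      have h4 : (fun i : Fin k => (fun j => ((w (e i) j : ℤ) : ℚ))) = (Subtype.val : b → Fin k → ℚ) ∘ e := by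
        funext i
        exact hw1 (e i)
      rw [h4]
      exact h3
    have h5 : (M.map (Int.cast : ℤ → ℚ)).det = 0 := by
      have h6 := RingHom.map_det (Int.castRingHom ℚ) M
      rw [hdet, map_zero] at h6
      exact h6.symm
    have h7 : IsUnit (M.map (Int.cast : ℤ → ℚ)) := by
      refine (Matrix.linearIndependent_rows_iff_isUnit).1 ?_
      have h8 : (M.map (Int.cast : ℤ → ℚ)).row = (fun i : Fin k => (fun j => ((w (e i) j : ℤ) : ℚ))) := by
        funext i j
        show ((M i j : ℤ) : ℚ) = _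
        rw [hMi]
      rw [h8]
      exact h2
    rw [Matrix.isUnit_iff_isUnit_det, h5] at h7
    exact not_isUnit_zero h7
  · refine ⟨insert 0 (univ.filter (fun j : Fin (k + 1) => ∃ i : Fin k, j = i.succ ∧ (w (e i)) + x₀ ∈ F ∧ w (e i) ≠ 0)), ?_⟩
    ext y
    rw [mem_image, mem_image]
    constructor
    · rintro ⟨x, hx, rfl⟩
      rcases eq_or_ne x x₀ with rfl | hne
      · exact ⟨0, mem_insert_self _ _, (show (0 : Fin k → ℤ) = x - x by rw [sub_self])⟩
      · have h2 : rat (x - x₀) ∈ b := hbS (by rw [hS]; exact ⟨x, hx, hne, rfl⟩)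
        have h3 : w ⟨rat (x - x₀), h2⟩ = x - x₀ := rat_injective (hw1 _)
        refine ⟨(e.symm ⟨rat (x - x₀), h2⟩).succ, mem_insert_of_mem (mem_filter.2 ⟨mem_univ _, _, rfl, ?_, ?_⟩), ?_⟩
        · rw [Equiv.apply_symm_apply, h3, sub_add_cancel]
          exact hx
        · rw [Equiv.apply_symm_apply, h3]
          exact sub_ne_zero.2 hne
        · show M (e.symm ⟨rat (x - x₀), h2⟩) = x - x₀
          rw [hMi, Equiv.apply_symm_apply, h3]
    · rintro ⟨j, hj, rfl⟩
      rw [mem_insert] at hj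
      rcases hj with rfl | hj
      · exact ⟨x₀, hx₀, (show x₀ - x₀ = (0 : Fin k → ℤ) by rw [sub_self])⟩
      · rw [mem_filter] at hj
        obtain ⟨-, i, rfl, h2, -⟩ := hj
        exact ⟨w (e i) + x₀, h2, (show w (e i) + x₀ - x₀ = M i by rw [hMi, add_sub_cancel_right])⟩

end Pool.Agent.H34.EV
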