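import Pool.Agent.H34.EV.Two
import Pool.Agent.H34.EV.Aff

/-!
# [H34 EV CNTF] The expected order for all affinely independent sets of points of a box

`cntF`: the clause on the counts of `sim2`, for all affinely independent sets `F` of points of the box `[-N, N] ^ k`: for almost all `a`
one `m = P * W * ∑ i ∈ I, c i` is such that for all `F` many `t ≤ X` are such that all `t + m x.a`, `x ∈ F`, are primes `≡ s (mod W)` of
one colour.
-/

set_option autoImplicit false

namespace Pool.Agent.H34.EV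

open Finset Filter Pool.Agent.H48.EP Pool.Agent.H34.EQ

/-- filters, whatever the decision procedures -/
private theorem cle' {α : Type} {s : Finset α} {p q : α → Prop} {dp : DecidablePred p} {dq : DecidablePred q}
    (h : ∀ a ∈ s, p a → q a) : ((@Finset.filter α p dp s).card : ℝ) ≤ ((@Finset.filter α q dq s).card : ℝ) := by
  refine Nat.cast_le.2 (card_le_card fun a ha => ?_)
  rw [mem_filter] at ha ⊢
  exact ⟨ha.1, h a ha.1 ha.2⟩

/-- the patterns with base points `t`, from the patterns with first prime `p` -/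
theorem count_shift {k r : ℕ} (W s₀ : ℕ) (χ : ℕ → Fin r) (q : Fin r) (m : ℕ) (a x₀ : Fin k → ℤ) (M : Matrix (Fin k) (Fin k) ℤ)
    (J : Finset (Fin (k + 1))) (F : Finset (Fin k → ℤ))
    (hF : F.image (fun x => x - x₀) = J.image (Fin.cons 0 M : Fin (k + 1) → Fin k → ℤ)) (X X' S : ℕ)
    (hS : |(m : ℤ) * ∑ i, x₀ i * a i| ≤ S) (hX : X' + S ≤ X) :
    cnt W s₀ χ q (fun j => (m : ℤ) * M.mulVec a j) X' ≤
      {t : ℕ | t ≤ X ∧ ∀ x ∈ F, ∃ p : ℕ, (p : ℤ) = t + m * ∑ i, x i * a i ∧ Pr W s₀ χ q p}.ncard + S := by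
  classical
  obtain ⟨A, hA⟩ : ∃ A : Set ℕ, A = {p : ℕ | p ≤ X' ∧ Pr W s₀ χ q p ∧ ∀ j, ∃ p' : ℕ, (p' : ℤ) = p + (m : ℤ) * M.mulVec a j ∧
    Pr W s₀ χ q p'} := ⟨_, rfl⟩
  obtain ⟨T, hT⟩ : ∃ T : Set ℕ, T = {t : ℕ | t ≤ X ∧ ∀ x ∈ F, ∃ p : ℕ, (p : ℤ) = t + m * ∑ i, x i * a i ∧
    Pr W s₀ χ q p} := ⟨_, rfl⟩
  obtain ⟨y, hy⟩ : ∃ y : ℤ, y = (m : ℤ) * ∑ i, x₀ i * a i := ⟨_, rfl⟩
  rw [← hy] at hS
  have hTfin : T.Finite := by
    rw [hT]
    exact (Set.finite_Iic X).subset fun t ht => ht.1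
  have h1 : A ⊆ (Set.Iio S) ∪ ((fun t : ℕ => ((t : ℤ) + y).toNat) '' T) := by
    intro p hp
    rw [hA] at hp
    obtain ⟨hp1, hp2, hp3⟩ := hp
    by_cases hpS : p < S
    · exact Or.inl hpS
    · right
      have h2 := abs_le.1 hS
      have h3 : (0 : ℤ) ≤ (p : ℤ) - y := by
        have : (S : ℤ) ≤ p := by exact_mod_cast (not_lt.1 hpS)
        linarith [h2.2]
      refine ⟨((p : ℤ) - y).toNat, ?_, ?_⟩
      · rw [hT]
        refine ⟨?_, fun x hx => ?_⟩
        · have h4 : (((p : ℤ) - y).toNat : ℤ) ≤ X := by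
            rw [Int.toNat_of_nonneg h3]
            have h5 : (p : ℤ) ≤ X' := by exact_mod_cast hp1
            have h6 : ((X' + S : ℕ) : ℤ) ≤ X := by exact_mod_cast hX
            push_cast at h6
            linarith [h2.1]
          exact_mod_cast h4
        · rw [Int.toNat_of_nonneg h3]
          have h4 : x - x₀ ∈ J.image (Fin.cons 0 M : Fin (k + 1) → Fin k → ℤ) := by
            rw [← hF]
            exact mem_image_of_mem _ hx
          rw [mem_image] at h4
          obtain ⟨j, -, hj⟩ := h4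
          have h5 : ∑ i, x i * a i = ∑ i, (Fin.cons 0 M : Fin (k + 1) → Fin k → ℤ) j i * a i + ∑ i, x₀ i * a i := by
            rw [← sum_add_distrib]
            refine sum_congr rfl fun i _ => ?_
            rw [hj, Pi.sub_apply]
            ring
          rw [h5, mul_add, ← hy]
          revert hj h5
          refine Fin.cases ?_ (fun j => ?_) j
          · intro _ _
            refine ⟨p, ?_, hp2⟩
            have h6 : ∑ i, (Fin.cons 0 M : Fin (k + 1) → Fin k → ℤ) 0 i * a i = 0 := by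
              refine sum_eq_zero fun i _ => ?_
              show (0 : ℤ) * a i = 0
              rw [zero_mul]
            rw [h6]
            ring
          · intro _ _
            obtain ⟨p', hp', hp4⟩ := hp3 j
            refine ⟨p', ?_, hp4⟩
            rw [hp']
            have h6 : ∑ i, (Fin.cons 0 M : Fin (k + 1) → Fin k → ℤ) j.succ i * a i = M.mulVec a j := by
              rw [Matrix.mulVec, dotProduct]
              rfl
            rw [h6]
            ring
      · show ((((p : ℤ) - y).toNat : ℤ) + y).toNat = p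
        rw [Int.toNat_of_nonneg h3, sub_add_cancel, Int.toNat_natCast]
  have h2 : A.ncard ≤ T.ncard + S := by
    calc A.ncard ≤ ((Set.Iio S) ∪ ((fun t : ℕ => ((t : ℤ) + y).toNat) '' T)).ncard :=
          Set.ncard_le_ncard h1 ((Set.finite_Iio S).union (hTfin.image _))
      _ ≤ (Set.Iio S).ncard + ((fun t : ℕ => ((t : ℤ) + y).toNat) '' T).ncard := Set.ncard_union_le _ _
      _ ≤ S + T.ncard := by
          refine Nat.add_le_add (le_of_eq ?_) (Set.ncard_image_le hTfin)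
          rw [← Nat.card_coe_set_eq]
          simp
      _ = T.ncard + S := Nat.add_comm _ _
  rw [← hT]
  refine le_trans (le_of_eq ?_) h2
  rw [hA]
  rfl

open Classical in
/-- **the expected order, for all affinely independent sets of points of a box** -/
theorem cntF (k r N : ℕ) (hN : 1 ≤ N) : ∃ D n P : ℕ, 0 < P ∧ ∀ c : Fin n → ℕ, (∀ i, 1 ≤ c i) → ∀ ε : ℝ, 0 < ε → ∃ B : ℕ,
    ∀ W s₀ : ℕ, 0 < W → Nat.Coprime s₀ W → ∀ A : ℕ, ∃ (d : ℝ) (X₀ : ℕ), 0 < d ∧
      ∀ (χ : ℕ → Fin r) (X z : ℕ) (b : Fin k → ℤ), X₀ ≤ X → B ≤ z →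
      (z : ℝ) ≤ Real.log X ^ A → (∀ j, |(b j : ℝ)| ≤ Real.log X ^ A) →
      (((Fintype.piFinset (fun j : Fin k => Ioc (b j) (b j + z))).filter (fun a => ¬ ∃ I : Finset (Fin n), I.Nonempty ∧
        ∀ F : Finset (Fin k → ℤ), (∀ x ∈ F, ∀ i, |x i| ≤ N) →
          AffineIndependent ℚ (fun x : F => fun i => ((x : Fin k → ℤ) i : ℚ)) →
          ∃ q : Fin r, d * min 1 (z / Real.log X) ^ D * X ≤ Real.log X ^ (k + 1) *
            ({t : ℕ | t ≤ X ∧ ∀ x ∈ F, ∃ p : ℕ, (p : ℤ) = t + (P * W * ∑ i ∈ I, c i : ℕ) * ∑ i, x i * a i ∧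
              Pr W s₀ χ q p}.ncard : ℝ))).card : ℝ) ≤ ε * (z : ℝ) ^ k := by
  obtain ⟨D, n, P, hP, h⟩ := sim2 k r (2 * N) (by omega)
  refine ⟨D, n, P, hP, fun c hc ε hε => ?_⟩
  obtain ⟨B, h⟩ := h c hc ε hε
  refine ⟨B + 1, fun W s₀ hW hs₀ A => ?_⟩
  obtain ⟨d, X₀, hd, h⟩ := (h W s₀ hW hs₀).2 (A + 1)
  -- the size of the shifts
  obtain ⟨C, hC⟩ : ∃ C : ℕ, C = P * W * (∑ i, c i) * (k * (N * 2)) := ⟨_, rfl⟩
  have hlog : Tendsto (fun X : ℕ => Real.log (X : ℝ)) atTop atTop := Real.tendsto_log_atTop.comp tendsto_natCast_atTop_atTop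
  have hpow : ∀ (A : ℕ) (κ : ℝ), 0 < κ → ∀ᶠ X : ℕ in atTop, Real.log (X : ℝ) ^ A ≤ κ * X := by
    intro A κ hκ
    have h1 := (Real.isLittleO_pow_log_id_atTop (n := A)).bound hκ
    filter_upwards [tendsto_natCast_atTop_atTop.eventually h1, hlog.eventually_ge_atTop 0] with X h2 h3
    rw [Real.norm_of_nonneg (pow_nonneg h3 _)] at h2
    rw [id, Real.norm_of_nonneg (Nat.cast_nonneg _)] at h2
    exact h2
  obtain ⟨d₁, hd₁⟩ : ∃ d₁ : ℝ, d₁ = min 1 (d / 6) := ⟨_, rfl⟩
  have hd₁0 : 0 < d₁ := by rw [hd₁]; exact lt_min one_pos (by positivity)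
  have hd₁1 : d₁ ≤ 1 := by rw [hd₁]; exact min_le_left _ _
  have hd₁2 : d₁ ≤ d / 6 := by rw [hd₁]; exact min_le_right _ _
  obtain ⟨X1, hX1⟩ := eventually_atTop.1 ((hpow (A + 1) (1 / 8) (by norm_num)).and
    ((hpow (A + 1 + (k + 1) + D) (d / 12) (by positivity)).and ((hlog.eventually_ge_atTop ((C : ℝ) + 4 ^ (A + 1))).and
    (hlog.eventually_ge_atTop (2 * Real.log 3)))))
  refine ⟨d₁, X1 + 2 * X₀ + 9, hd₁0, fun χ X z b hX hz hzA hbA => ?_⟩
  obtain ⟨hX2, hX3, hX4, hX5⟩ := hX1 X (by omega)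
  have hX0 : (0 : ℝ) < X := by
    have : 0 < X := by omega
    exact_mod_cast this
  have h4p : (4 : ℝ) ≤ 4 ^ (A + 1) := by
    calc (4 : ℝ) = 4 ^ 1 := (pow_one _).symm
      _ ≤ 4 ^ (A + 1) := pow_le_pow_right₀ (by norm_num) (by omega)
  have hC0 : (0 : ℝ) ≤ C := Nat.cast_nonneg _
  have hl1 : 1 ≤ Real.log (X : ℝ) := by linarith
  have hl0 : 0 < Real.log (X : ℝ) := by linarith
  -- half of X
  obtain ⟨X', hX'⟩ : ∃ X' : ℕ, X' = X / 2 := ⟨_, rfl⟩
  have hX'3 : X ≤ 3 * X' := by omega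
  have hX'3r : (X : ℝ) ≤ 3 * X' := by exact_mod_cast hX'3
  have hX'2 : 2 * X' ≤ X := by omega
  have hX'2r : 2 * (X' : ℝ) ≤ X := by exact_mod_cast hX'2
  have hX'0 : (0 : ℝ) < X' := by linarith
  have hlX' : Real.log (X' : ℝ) ≤ Real.log X := Real.log_le_log hX'0 (by linarith)
  have hlX'2 : Real.log X / 2 ≤ Real.log (X' : ℝ) := by
    have h1 : Real.log (X : ℝ) ≤ Real.log (3 * X') := Real.log_le_log hX0 hX'3r
    rw [Real.log_mul (by norm_num) hX'0.ne'] at h1
    linarith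
  have hlX'0 : 0 < Real.log (X' : ℝ) := by linarith
  have hAA : Real.log (X : ℝ) ^ A ≤ Real.log (X' : ℝ) ^ (A + 1) := by
    have h1 : (Real.log X / 2) ^ (A + 1) ≤ Real.log (X' : ℝ) ^ (A + 1) := pow_le_pow_left₀ (by positivity) hlX'2 _
    refine le_trans ?_ h1
    rw [div_pow, le_div_iff₀ (by positivity), pow_succ (Real.log (X : ℝ))]
    refine mul_le_mul_of_nonneg_left ?_ (by positivity)
    have h2 : (2 : ℝ) ^ (A + 1) ≤ 4 ^ (A + 1) := pow_le_pow_left₀ (by norm_num) (by norm_num) _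
    linarith
  have hres := h χ X' z b (by omega) (by omega) (hzA.trans hAA) (fun j => (hbA j).trans hAA)
  have hz1 : (1 : ℝ) ≤ z := by
    have : 1 ≤ z := by omega
    exact_mod_cast this
  obtain ⟨ν, hν⟩ : ∃ ν : ℝ, ν = min 1 ((z : ℝ) / Real.log X) := ⟨_, rfl⟩
  have hν0 : 0 < ν := by rw [hν]; exact lt_min one_pos (by positivity)
  have hν1 : ν ≤ 1 := by rw [hν]; exact min_le_left _ _
  have hνl : 1 / Real.log X ≤ ν := by
    rw [hν]
    refine le_min ?_ (div_le_div_of_nonneg_right hz1 hl0.le)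
    rw [div_le_one hl0]
    exact hl1
  refine (cle' fun a haQ ha => ?_).trans hres
  intro hcon
  obtain ⟨I, hI, hM⟩ := hcon
  refine ha ⟨I, hI, fun F hF hFA => ?_⟩
  rw [← hν]
  rcases F.eq_empty_or_nonempty with hFe | ⟨x₀, hx₀⟩
  · -- the empty set
    obtain ⟨q, -⟩ := hM 1 (one_mem_mats (by omega))
    refine ⟨q, ?_⟩
    have h1 : {t : ℕ | t ≤ X ∧ ∀ x ∈ F, ∃ p : ℕ, (p : ℤ) = t + (P * W * ∑ i ∈ I, c i : ℕ) * ∑ i, x i * a i ∧
        Pr W s₀ χ q p} = Set.Iic X := by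
      ext t
      rw [hFe]
      simp
    rw [h1]
    have h2 : (Set.Iic X).ncard = X + 1 := by
      rw [← Nat.card_coe_set_eq]
      simp
    rw [h2]
    push_cast
    have h3 : ν ^ D ≤ 1 := pow_le_one₀ hν0.le hν1
    have h4 : 1 ≤ Real.log (X : ℝ) ^ (k + 1) := one_le_pow₀ hl1
    have h5 : d₁ * ν ^ D ≤ 1 := by
      calc d₁ * ν ^ D ≤ 1 * 1 := mul_le_mul hd₁1 h3 (by positivity) zero_le_one
        _ = 1 := one_mul 1
    calc d₁ * ν ^ D * X ≤ 1 * X := mul_le_mul_of_nonneg_right h5 hX0.le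
      _ ≤ Real.log X ^ (k + 1) * (X + 1) := mul_le_mul h4 (by linarith) hX0.le (by positivity)
  · obtain ⟨M, hM1, hM2, J, hJ⟩ := aff_matrix hN F x₀ hx₀ hF hFA
    obtain ⟨q, hq⟩ := hM M (mem_mats.2 ⟨hM1, hM2⟩)
    refine ⟨q, ?_⟩
    obtain ⟨m, hm⟩ : ∃ m : ℕ, m = P * W * ∑ i ∈ I, c i := ⟨_, rfl⟩
    rw [← hm] at hq ⊢
    -- the shift
    obtain ⟨S, hS⟩ : ∃ S : ℕ, S = ⌊Real.log (X : ℝ) ^ (A + 1)⌋₊ := ⟨_, rfl⟩
    have hSr : (S : ℝ) ≤ Real.log X ^ (A + 1) := by rw [hS]; exact Nat.floor_le (by positivity)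
    have hShift : |(m : ℤ) * ∑ i, x₀ i * a i| ≤ S := by
      have h1 : |(m : ℝ) * ∑ i, (x₀ i : ℝ) * a i| ≤ Real.log X ^ (A + 1) := by
        have hma : ∀ i, |(a i : ℝ)| ≤ 2 * Real.log X ^ A := by
          intro i
          rw [Fintype.mem_piFinset] at haQ
          have h1 := mem_Ioc.1 (haQ i)
          have h2 := abs_le.1 (hbA i)
          have h3 : (b i : ℝ) < a i := by exact_mod_cast h1.1
          have h4 : (a i : ℝ) ≤ b i + z := by exact_mod_cast h1.2
          have h5 : (0 : ℝ) ≤ Real.log X ^ A := by positivity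
          rw [abs_le]
          constructor <;> linarith [h2.1, h2.2]
        have h2 : |∑ i, (x₀ i : ℝ) * a i| ≤ k * (N * (2 * Real.log X ^ A)) := by
          refine (abs_sum_le_sum_abs _ _).trans ?_
          have h3 : ∀ i ∈ (univ : Finset (Fin k)), |(x₀ i : ℝ) * (a i : ℝ)| ≤ N * (2 * Real.log X ^ A) := by
            intro i _
            rw [abs_mul]
            refine mul_le_mul ?_ (hma i) (abs_nonneg _) (Nat.cast_nonneg _)
            have h4 := hF x₀ hx₀ i
            exact_mod_cast h4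
          refine (sum_le_card_nsmul _ _ _ h3).trans (le_of_eq ?_)
          rw [card_univ, Fintype.card_fin, nsmul_eq_mul]
        have h3 : (m : ℝ) ≤ P * W * ∑ i, (c i : ℝ) := by
          rw [hm]
          push_cast
          exact mul_le_mul_of_nonneg_left (sum_le_sum_of_subset_of_nonneg (subset_univ I) fun _ _ _ => Nat.cast_nonneg _)
            (by positivity)
        rw [abs_mul, Nat.abs_cast]
        calc (m : ℝ) * |∑ i, (x₀ i : ℝ) * a i| ≤ (P * W * ∑ i, (c i : ℝ)) * (k * (N * (2 * Real.log X ^ A))) :=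
              mul_le_mul h3 h2 (abs_nonneg _) (by positivity)
          _ = C * Real.log X ^ A := by
              rw [hC]
              push_cast
              ring
          _ ≤ Real.log X ^ (A + 1) := by
              rw [pow_succ, mul_comm]
              exact mul_le_mul_of_nonneg_left (by linarith) (by positivity)
      rw [Int.abs_eq_natAbs]
      have h2 : ((((m : ℤ) * ∑ i, x₀ i * a i).natAbs : ℕ) : ℝ) ≤ Real.log X ^ (A + 1) := by
        rw [Nat.cast_natAbs, Int.cast_abs]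
        push_cast
        exact h1
      have h3 : ((m : ℤ) * ∑ i, x₀ i * a i).natAbs ≤ S := by
        rw [hS]
        exact Nat.le_floor h2
      exact_mod_cast h3
    have hXS : X' + S ≤ X := by
      have h1 : ((X' + S : ℕ) : ℝ) ≤ X := by
        push_cast
        linarith
      exact_mod_cast h1
    have hcs := count_shift W s₀ χ q m a x₀ M J F hJ X X' S hShift hXS
    obtain ⟨cn, hcn⟩ : ∃ cn : ℕ, cn = cnt W s₀ χ q (fun j => (m : ℤ) * M.mulVec a j) X' := ⟨_, rfl⟩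
    rw [← hcn] at hcs
    have hq' : d * min 1 (z / Real.log X') ^ D * X' ≤ Real.log X' ^ (k + 1) * (cn : ℝ) := by
      rw [hcn]
      exact hq
    obtain ⟨tn, htn⟩ : ∃ tn : ℕ, tn = {t : ℕ | t ≤ X ∧ ∀ x ∈ F, ∃ p : ℕ, (p : ℤ) = t + m * ∑ i, x i * a i ∧
      Pr W s₀ χ q p}.ncard := ⟨_, rfl⟩
    rw [← htn] at hcs ⊢
    have hcsr : (cn : ℝ) ≤ tn + S := by exact_mod_cast hcs
    -- lower bound of the left side
    have hνX' : ν ≤ min 1 (z / Real.log X') := by
      rw [hν]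
      exact min_le_min le_rfl (div_le_div_of_nonneg_left (by linarith) hlX'0 hlX')
    have h1 : d * ν ^ D * (X / 3) ≤ Real.log X ^ (k + 1) * cn := by
      calc d * ν ^ D * (X / 3) ≤ d * min 1 (z / Real.log X') ^ D * X' := by
            refine mul_le_mul (mul_le_mul_of_nonneg_left (pow_le_pow_left₀ hν0.le hνX' D) hd.le) (by linarith) (by positivity) ?_
            exact mul_nonneg hd.le (pow_nonneg (hν0.le.trans hνX') D)
        _ ≤ Real.log X' ^ (k + 1) * cn := hq'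
        _ ≤ Real.log X ^ (k + 1) * cn := mul_le_mul_of_nonneg_right (pow_le_pow_left₀ hlX'0.le hlX' _) (Nat.cast_nonneg _)
    -- the shift is negligible
    have h2 : Real.log X ^ (k + 1) * S ≤ d / 12 * ν ^ D * X := by
      have h3 : (1 / Real.log X) ^ D ≤ ν ^ D := pow_le_pow_left₀ (by positivity) hνl D
      have h4 : Real.log X ^ (k + 1) * S * Real.log X ^ D ≤ d / 12 * X := by
        refine le_trans ?_ hX3
        calc Real.log X ^ (k + 1) * S * Real.log X ^ D ≤ Real.log X ^ (k + 1) * Real.log X ^ (A + 1) * Real.log X ^ D :=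
              mul_le_mul_of_nonneg_right (mul_le_mul_of_nonneg_left hSr (by positivity)) (by positivity)
          _ = Real.log X ^ (A + 1 + (k + 1) + D) := by ring
      calc Real.log X ^ (k + 1) * S = Real.log X ^ (k + 1) * S * Real.log X ^ D * (1 / Real.log X) ^ D := by
            rw [div_pow, one_pow]
            field_simp
        _ ≤ d / 12 * X * (1 / Real.log X) ^ D := mul_le_mul_of_nonneg_right h4 (by positivity)
        _ ≤ d / 12 * X * ν ^ D := mul_le_mul_of_nonneg_left h3 (by positivity)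
        _ = d / 12 * ν ^ D * X := by ring
    have h3 : Real.log X ^ (k + 1) * cn ≤ Real.log X ^ (k + 1) * tn + Real.log X ^ (k + 1) * S := by
      rw [← mul_add]
      exact mul_le_mul_of_nonneg_left hcsr (by positivity)
    have h4 : d₁ * ν ^ D * X ≤ d / 6 * ν ^ D * X :=
      mul_le_mul_of_nonneg_right (mul_le_mul_of_nonneg_right hd₁2 (by positivity)) hX0.le
    have h5 : 0 ≤ d * ν ^ D * X := by positivity
    linarith

end Pool.Agent.H34.EV
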