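import Pool.Agent.H34.EV.Folk

/-!
# [H34 EV FI] Finite intersections of IP statements

`IPst k G`: for almost all `a` (in every cube of `ℤ ^ k`, uniformly in the parameter `th`) there is a nonempty `I` such that
`G th (P * ∑ i ∈ I, c i) a`.  `IPst.all`: if it is true for `G φ`, `φ` in a finite type, it is true for `∀ φ, G φ th m a`.
-/

set_option autoImplicit false

namespace Pool.Agent.H34.EV

open Finset

open Classical in
/-- almost all `a` have a multiplier `P * ∑ i ∈ I, c i` with `G` -/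
def IPst (k : ℕ) {Th : Type} (G : Th → ℕ → (Fin k → ℤ) → Prop) : Prop :=
  ∃ n P : ℕ, 0 < P ∧ ∀ c : Fin n → ℕ, (∀ i, 1 ≤ c i) → ∀ ε : ℝ, 0 < ε → ∃ B : ℕ, ∀ (th : Th) (z : ℕ) (b : Fin k → ℤ), B ≤ z →
    (((Fintype.piFinset (fun j : Fin k => Ioc (b j) (b j + z))).filter (fun a => ¬ ∃ I : Finset (Fin n), I.Nonempty ∧
      G th (P * ∑ i ∈ I, c i) a)).card : ℝ) ≤ ε * (z : ℝ) ^ k

/-- filters, whatever the decision procedures -/
theorem cle {α : Type} {s : Finset α} {p q : α → Prop} {dp : DecidablePred p} {dq : DecidablePred q}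
    (h : ∀ a ∈ s, p a → q a) : ((@Finset.filter α p dp s).card : ℝ) ≤ ((@Finset.filter α q dq s).card : ℝ) := by
  refine Nat.cast_le.2 (card_le_card fun a ha => ?_)
  rw [mem_filter] at ha ⊢
  exact ⟨ha.1, h a ha.1 ha.2⟩

theorem IPst.mono {k : ℕ} {Th : Type} {G G' : Th → ℕ → (Fin k → ℤ) → Prop} (h : IPst k G)
    (hG : ∀ th m a, G th m a → G' th m a) : IPst k G' := by
  obtain ⟨n, P, hP, h⟩ := h
  refine ⟨n, P, hP, fun c hc ε hε => ?_⟩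
  obtain ⟨B, h⟩ := h c hc ε hε
  refine ⟨B, fun th z b hz => (cle fun a _ ha => ?_).trans (h th z b hz)⟩
  rintro ⟨I, hI, h1⟩
  exact ha ⟨I, hI, hG _ _ _ h1⟩

open Classical in
/-- **finite intersections** -/
theorem IPst.all {k : ℕ} {Th Φ : Type} [Finite Φ] {G : Φ → Th → ℕ → (Fin k → ℤ) → Prop} (h : ∀ φ, IPst k (G φ)) :
    IPst k (fun th m a => ∀ φ, G φ th m a) := by
  obtain ⟨hΦ⟩ := nonempty_fintype Φ
  choose nf Pf hPf h using h
  obtain ⟨n₀, hn₀⟩ : ∃ n₀ : ℕ, n₀ = ∑ φ, nf φ := ⟨_, rfl⟩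
  have hnle : ∀ φ, nf φ ≤ n₀ := by
    intro φ
    rw [hn₀]
    exact single_le_sum (f := nf) (fun _ _ => Nat.zero_le _) (mem_univ φ)
  obtain ⟨P, hP⟩ : ∃ P : ℕ, P = ∏ φ, Pf φ := ⟨_, rfl⟩
  have hP0 : 0 < P := by
    rw [hP]
    exact prod_pos fun φ _ => hPf φ
  have hPd : ∀ φ, ∃ R : ℕ, P = Pf φ * R ∧ 1 ≤ R := by
    intro φ
    obtain ⟨R, hR⟩ : Pf φ ∣ P := by
      rw [hP]
      exact dvd_prod_of_mem Pf (mem_univ φ)
    refine ⟨R, hR, ?_⟩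
    rcases Nat.eq_zero_or_pos R with h0 | h0
    · rw [h0, Nat.mul_zero] at hR
      omega
    · exact h0
  choose Rf hRf hRf1 using hPd
  obtain ⟨n, hn⟩ := folkman Φ n₀
  -- at least one element: needed for the nonempty `I` when `Φ` is empty
  refine ⟨n + 1, P, hP0, fun c hc ε hε => ?_⟩
  -- the weights
  obtain ⟨wt, hwt⟩ : ∃ wt : (φ : Φ) → (Fin n₀ → Finset (Fin n)) → Fin (nf φ) → ℕ, wt = fun φ J j =>
      Rf φ * ∑ i ∈ J (Fin.castLE (hnle φ) j), c i.castSucc := ⟨_, rfl⟩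
  obtain ⟨ε', hε'⟩ : ∃ ε' : ℝ, ε' = ε / ((((2 ^ n) ^ n₀ : ℕ) : ℝ) * Fintype.card Φ + 1) := ⟨_, rfl⟩
  have hε'0 : 0 < ε' := by rw [hε']; positivity
  have hB : ∀ (φ : Φ) (J : Fin n₀ → Finset (Fin n)), ∃ B : ℕ, (∀ j, (J j).Nonempty) → ∀ (th : Th) (z : ℕ) (b : Fin k → ℤ),
      B ≤ z → (((Fintype.piFinset (fun j : Fin k => Ioc (b j) (b j + z))).filter (fun a => ¬ ∃ I : Finset (Fin (nf φ)),
        I.Nonempty ∧ G φ th (Pf φ * ∑ j ∈ I, wt φ J j) a)).card : ℝ) ≤ ε' * (z : ℝ) ^ k := by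
    intro φ J
    by_cases hJ : ∀ j, (J j).Nonempty
    · obtain ⟨B, hB⟩ := h φ (wt φ J) (fun j => by
        rw [hwt]
        obtain ⟨i, hi⟩ := hJ (Fin.castLE (hnle φ) j)
        exact Nat.mul_pos (hRf1 φ) ((hc _).trans (single_le_sum (f := fun i => c (Fin.castSucc i))
          (fun _ _ => Nat.zero_le _) hi))) ε' hε'0
      exact ⟨B, fun _ => hB⟩
    · exact ⟨0, fun h => absurd h hJ⟩
  choose Bf hBf using hB
  refine ⟨∑ φ, ∑ J, Bf φ J, fun th z b hz => ?_⟩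
  have hBle : ∀ φ J, Bf φ J ≤ z := by
    intro φ J
    have h1 := single_le_sum (f := Bf φ) (fun _ _ => Nat.zero_le _) (mem_univ J)
    have h2 := single_le_sum (f := fun φ => ∑ J, Bf φ J) (fun _ _ => Nat.zero_le _) (mem_univ φ)
    have h3 : ∑ J, Bf φ J ≤ ∑ φ, ∑ J, Bf φ J := h2
    omega
  obtain ⟨Q, hQ⟩ : ∃ Q : Finset (Fin k → ℤ), Q = Fintype.piFinset (fun j => Ioc (b j) (b j + z)) := ⟨_, rfl⟩
  obtain ⟨Js, hJs⟩ : ∃ Js : Finset (Fin n₀ → Finset (Fin n)), Js = univ.filter (fun J => ∀ j, (J j).Nonempty) := ⟨_, rfl⟩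
  obtain ⟨Ex, hEx⟩ : ∃ Ex : Φ × (Fin n₀ → Finset (Fin n)) → Finset (Fin k → ℤ), Ex = fun p => Q.filter
      (fun a => ¬ ∃ I : Finset (Fin (nf p.1)), I.Nonempty ∧ G p.1 th (Pf p.1 * ∑ j ∈ I, wt p.1 p.2 j) a) := ⟨_, rfl⟩
  have hsub : ∀ a ∈ Q, (¬ ∃ I : Finset (Fin (n + 1)), I.Nonempty ∧ ∀ φ, G φ th (P * ∑ i ∈ I, c i) a) →
      a ∈ ((univ : Finset Φ) ×ˢ Js).biUnion Ex := by
    intro a haQ hbad
    push Not at hbad
    obtain ⟨φ₀, -⟩ := hbad {Fin.last n} (singleton_nonempty _)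
    have hC : ∀ I : Finset (Fin n), ∃ φ : Φ, I.Nonempty → ¬ G φ th (P * ∑ i ∈ I, c i.castSucc) a := by
      intro I
      by_cases hI : I.Nonempty
      · obtain ⟨φ, hφ⟩ := hbad (I.map Fin.castSuccEmb) (by simpa using hI)
        refine ⟨φ, fun _ => ?_⟩
        rw [sum_map] at hφ
        exact hφ
      · exact ⟨φ₀, fun h => absurd h hI⟩
    choose C hC using hC
    obtain ⟨J, hJ1, hJ2, φ, hφ⟩ := hn C
    rw [mem_biUnion]
    refine ⟨(φ, J), mem_product.2 ⟨mem_univ _, ?_⟩, ?_⟩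
    · rw [hJs, mem_filter]
      exact ⟨mem_univ _, hJ1⟩
    · rw [hEx]
      dsimp only
      rw [mem_filter]
      refine ⟨haQ, ?_⟩
      rintro ⟨I, hI, hGI⟩
      obtain ⟨I', hI'⟩ : ∃ I' : Finset (Fin n₀), I' = I.map (Fin.castLEEmb (hnle φ)) := ⟨_, rfl⟩
      have hI'n : I'.Nonempty := by
        rw [hI']
        simpa using hI
      have hne : (I'.biUnion J).Nonempty := by
        obtain ⟨j, hj⟩ := hI'n
        obtain ⟨i, hi⟩ := hJ1 j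
        exact ⟨i, mem_biUnion.2 ⟨j, hj, hi⟩⟩
      apply hC _ hne
      rw [hφ I' hI'n, sum_biUnion (fun i _ j _ hij => hJ2 i j hij)]
      have h5 : P * ∑ x ∈ I', ∑ i ∈ J x, c i.castSucc = Pf φ * ∑ j ∈ I, wt φ J j := by
        rw [hI', sum_map, hwt]
        dsimp only
        rw [← mul_sum, ← mul_assoc, ← hRf φ]
        rfl
      rw [h5]
      exact hGI
  have h1 : ((((univ : Finset Φ) ×ˢ Js).biUnion Ex).card : ℝ) ≤ ∑ p ∈ (univ : Finset Φ) ×ˢ Js, ((Ex p).card : ℝ) := by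
    exact_mod_cast card_biUnion_le
  have h2 : ∀ p ∈ (univ : Finset Φ) ×ˢ Js, ((Ex p).card : ℝ) ≤ ε' * (z : ℝ) ^ k := by
    intro p hp
    obtain ⟨-, hp2⟩ := mem_product.1 hp
    rw [hJs, mem_filter] at hp2
    have h3 := hBf p.1 p.2 hp2.2 th z b (hBle _ _)
    rw [hEx, hQ]
    exact h3
  have h3 : (((univ : Finset Φ) ×ˢ Js).card : ℝ) ≤ (((2 ^ n) ^ n₀ : ℕ) : ℝ) * Fintype.card Φ := by
    have h4 : Js.card ≤ (2 ^ n) ^ n₀ := by
      refine (card_le_univ _).trans (le_of_eq ?_)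
      rw [Fintype.card_fun, Fintype.card_fin, Fintype.card_finset, Fintype.card_fin]
    have h5 : ((univ : Finset Φ) ×ˢ Js).card ≤ (2 ^ n) ^ n₀ * Fintype.card Φ := by
      rw [card_product, card_univ, Nat.mul_comm]
      exact Nat.mul_le_mul_right _ h4
    exact_mod_cast h5
  have h6 : (((Q.filter (fun a => ¬ ∃ I : Finset (Fin (n + 1)), I.Nonempty ∧ ∀ φ, G φ th (P * ∑ i ∈ I, c i) a))).card : ℝ) ≤
      ((((univ : Finset Φ) ×ˢ Js).biUnion Ex).card : ℝ) := by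
    refine Nat.cast_le.2 (card_le_card fun a ha => ?_)
    obtain ⟨ha1, ha2⟩ := mem_filter.1 ha
    exact hsub a ha1 ha2
  rw [← hQ]
  refine (cle fun a _ ha => ha).trans (h6.trans (h1.trans ((sum_le_card_nsmul _ _ _ h2).trans ?_)))
  rw [nsmul_eq_mul]
  have h7 : 0 ≤ ε' * (z : ℝ) ^ k := by positivity
  refine (mul_le_mul_of_nonneg_right h3 h7).trans ?_
  have h8 : (((2 ^ n) ^ n₀ : ℕ) : ℝ) * Fintype.card Φ * (ε' * (z : ℝ) ^ k) =
      (((2 ^ n) ^ n₀ : ℕ) : ℝ) * Fintype.card Φ / ((((2 ^ n) ^ n₀ : ℕ) : ℝ) * Fintype.card Φ + 1) * (ε * (z : ℝ) ^ k) := by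
    rw [hε']
    field_simp
  rw [h8]
  refine mul_le_of_le_one_left (by positivity) ?_
  rw [div_le_one (by positivity)]
  linarith

end Pool.Agent.H34.EV
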