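import Mathlib

/-!
# [H34 EV FOLK] The finite unions theorem (Folkman, Rado, Sanders)

From the extended Hales-Jewett theorem of Mathlib: sets `J 0, .., J (t - 1)`, such that the colour of a union depends only on the
largest index; then the pigeonhole principle.
-/

set_option autoImplicit false

namespace Pool.Agent.H34.EV

open Finset

/-- the colour of a union depends only on the largest index -/
theorem folk_max (κ : Type) [Finite κ] (t : ℕ) : ∃ n : ℕ, ∀ C : Finset (Fin n) → κ, ∃ (J : ℕ → Finset (Fin n)) (f : ℕ → κ),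
    (∀ i < t, (J i).Nonempty) ∧ (∀ i < t, ∀ j < t, i ≠ j → Disjoint (J i) (J j)) ∧
    ∀ I : Finset ℕ, ∀ j ∈ I, j < t → (∀ i ∈ I, i ≤ j) → C (I.biUnion J) = f j := by
  classical
  induction t with
  | zero =>
    refine ⟨0, fun C => ⟨fun _ => ∅, fun _ => C ∅, fun i hi => absurd hi (Nat.not_lt_zero i),
      fun i hi => absurd hi (Nat.not_lt_zero i), fun I j _ hj => absurd hj (Nat.not_lt_zero j)⟩⟩
  | succ t ih =>
    obtain ⟨n₁, h₁⟩ := ih
    obtain ⟨n₂, h₂⟩ := Combinatorics.Subspace.exists_mono_in_high_dimension_fin Bool κ (Fin n₁)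
    refine ⟨n₂ + 1, fun C => ?_⟩
    obtain ⟨l, c, hc⟩ := h₂ (fun w => C (insert 0 ((univ.filter (fun i => w i = true)).image Fin.succ)))
    obtain ⟨V, hV⟩ : ∃ V : Fin n₁ → Finset (Fin (n₂ + 1)), V = fun e =>
        (univ.filter (fun i => l.idxFun i = Sum.inr e)).image Fin.succ := ⟨_, rfl⟩
    obtain ⟨F, hF⟩ : ∃ F : Finset (Fin (n₂ + 1)), F =
        insert 0 ((univ.filter (fun i => l.idxFun i = Sum.inl true)).image Fin.succ) := ⟨_, rfl⟩
    have hVm : ∀ e y, y ∈ V e ↔ ∃ i, l.idxFun i = Sum.inr e ∧ Fin.succ i = y := by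
      intro e y
      rw [hV]
      simp only [mem_image, mem_filter, mem_univ, true_and]
    have hFm : ∀ y, y ∈ F ↔ y = 0 ∨ ∃ i, l.idxFun i = Sum.inl true ∧ Fin.succ i = y := by
      intro y
      rw [hF]
      simp only [mem_insert, mem_image, mem_filter, mem_univ, true_and]
    have hVn : ∀ e, (V e).Nonempty := by
      intro e
      obtain ⟨i, hi⟩ := l.proper e
      exact ⟨Fin.succ i, (hVm e _).2 ⟨i, hi, rfl⟩⟩
    have hVd : ∀ e e', e ≠ e' → Disjoint (V e) (V e') := by
      intro e e' hee
      rw [disjoint_left]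
      intro y hy hy'
      obtain ⟨i, hi, rfl⟩ := (hVm e y).1 hy
      obtain ⟨i', hi', h⟩ := (hVm e' _).1 hy'
      rw [Fin.succ_inj] at h
      rw [h, hi] at hi'
      exact hee (Sum.inr.inj hi')
    have hVF : ∀ e, Disjoint (V e) F := by
      intro e
      rw [disjoint_left]
      intro y hy hy'
      obtain ⟨i, hi, rfl⟩ := (hVm e y).1 hy
      rcases (hFm _).1 hy' with h | ⟨i', hi', h⟩
      · exact Fin.succ_ne_zero i h
      · rw [Fin.succ_inj] at h
        rw [h, hi] at hi'
        simp at hi'
    have hcol : ∀ E : Finset (Fin n₁), C (F ∪ E.biUnion V) = c := by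
      intro E
      have h1 := hc (fun e => decide (e ∈ E))
      rw [← h1]
      congr 1
      ext y
      rw [mem_union, hFm, mem_biUnion, mem_insert, mem_image]
      simp only [mem_filter, mem_univ, true_and]
      constructor
      · rintro ((h | ⟨i, hi, hiy⟩) | ⟨e, he, hey⟩)
        · exact Or.inl h
        · right
          refine ⟨i, ?_, hiy⟩
          rw [Combinatorics.Subspace.apply_inl hi]
        · right
          obtain ⟨i, hi, hiy⟩ := (hVm e y).1 hey
          refine ⟨i, ?_, hiy⟩
          rw [Combinatorics.Subspace.apply_inr hi]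
          exact decide_eq_true he
      · rintro (h | ⟨i, hi, hiy⟩)
        · exact Or.inl (Or.inl h)
        · cases hx : l.idxFun i with
          | inl b =>
            rw [Combinatorics.Subspace.apply_inl hx] at hi
            rw [hi] at hx
            exact Or.inl (Or.inr ⟨i, hx, hiy⟩)
          | inr e =>
            rw [Combinatorics.Subspace.apply_inr hx] at hi
            exact Or.inr ⟨e, of_decide_eq_true hi, (hVm e y).2 ⟨i, hx, hiy⟩⟩
    obtain ⟨J', f', h3, h4, h5⟩ := h₁ (fun E => C (E.biUnion V))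
    refine ⟨fun i => if i < t then (J' i).biUnion V else F, fun i => if i < t then f' i else c, ?_, ?_, ?_⟩
    · intro i _
      dsimp only
      split_ifs with h
      · obtain ⟨e, he⟩ := h3 i h
        obtain ⟨y, hy⟩ := hVn e
        exact ⟨y, mem_biUnion.2 ⟨e, he, hy⟩⟩
      · exact ⟨0, (hFm 0).2 (Or.inl rfl)⟩
    · intro i hi j hj hij
      dsimp only
      by_cases hi' : i < t
      · by_cases hj' : j < t
        · rw [if_pos hi', if_pos hj', disjoint_left]
          intro y hy hy'
          obtain ⟨e, he, hey⟩ := mem_biUnion.1 hy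
          obtain ⟨e', he', hey'⟩ := mem_biUnion.1 hy'
          have hee : e ≠ e' := by
            rintro rfl
            exact disjoint_left.1 (h4 i hi' j hj' hij) he he'
          exact disjoint_left.1 (hVd e e' hee) hey hey'
        · rw [if_pos hi', if_neg hj', disjoint_left]
          intro y hy hy'
          obtain ⟨e, he, hey⟩ := mem_biUnion.1 hy
          exact disjoint_left.1 (hVF e) hey hy'
      · by_cases hj' : j < t
        · rw [if_neg hi', if_pos hj', disjoint_left]
          intro y hy hy'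
          obtain ⟨e, he, hey⟩ := mem_biUnion.1 hy'
          exact disjoint_left.1 (hVF e) hey hy
        · exact absurd (by omega : i = j) hij
    · intro I j hjI hj hI
      dsimp only
      by_cases hj' : j < t
      · rw [if_pos hj']
        have h6 : I.biUnion (fun i => if i < t then (J' i).biUnion V else F) = (I.biUnion J').biUnion V := by
          rw [biUnion_biUnion]
          refine biUnion_congr rfl fun i hi => ?_
          rw [if_pos (lt_of_le_of_lt (hI i hi) hj')]
        rw [h6]
        exact h5 I j hjI hj' hI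
      · rw [if_neg hj']
        have h6 : I.biUnion (fun i => if i < t then (J' i).biUnion V else F) =
            F ∪ ((I.filter (fun i => i < t)).biUnion J').biUnion V := by
          ext y
          rw [mem_union, mem_biUnion]
          constructor
          · rintro ⟨i, hi, hy⟩
            split_ifs at hy with h
            · right
              rw [mem_biUnion] at hy ⊢
              obtain ⟨e, he, hey⟩ := hy
              exact ⟨e, mem_biUnion.2 ⟨i, mem_filter.2 ⟨hi, h⟩, he⟩, hey⟩
            · exact Or.inl hy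
          · rintro (hy | hy)
            · exact ⟨j, hjI, by rw [if_neg hj']; exact hy⟩
            · obtain ⟨e, he, hey⟩ := mem_biUnion.1 hy
              obtain ⟨i, hi, hie⟩ := mem_biUnion.1 he
              obtain ⟨hi1, hi2⟩ := mem_filter.1 hi
              exact ⟨i, hi1, by rw [if_pos hi2]; exact mem_biUnion.2 ⟨e, hie, hey⟩⟩
        rw [h6]
        exact hcol _

/-- **finite unions theorem** -/
theorem folkman (κ : Type) [Finite κ] (n₀ : ℕ) : ∃ n : ℕ, ∀ C : Finset (Fin n) → κ, ∃ J : Fin n₀ → Finset (Fin n),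
    (∀ j, (J j).Nonempty) ∧ (∀ i j, i ≠ j → Disjoint (J i) (J j)) ∧
    ∃ q : κ, ∀ I : Finset (Fin n₀), I.Nonempty → C (I.biUnion J) = q := by
  classical
  obtain ⟨hκ⟩ := nonempty_fintype κ
  obtain ⟨n, h⟩ := folk_max κ (Fintype.card κ * n₀ + 1)
  refine ⟨n, fun C => ?_⟩
  obtain ⟨J, f, h1, h2, h3⟩ := h C
  obtain ⟨q, -, hq⟩ := exists_lt_card_fiber_of_mul_lt_card_of_maps_to (s := range (Fintype.card κ * n₀ + 1))
    (t := (univ : Finset κ)) (f := f) (n := n₀) (fun _ _ => mem_univ _) (by
      rw [card_range, card_univ]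
      exact Nat.lt_succ_self _)
  obtain ⟨S, hS⟩ : ∃ S : Finset ℕ, S = (range (Fintype.card κ * n₀ + 1)).filter (fun x => f x = q) := ⟨_, rfl⟩
  rw [← hS] at hq
  have hSm : ∀ x ∈ S, x < Fintype.card κ * n₀ + 1 ∧ f x = q := by
    intro x hx
    rw [hS, mem_filter, mem_range] at hx
    exact hx
  obtain ⟨g, hg⟩ : ∃ g : Fin n₀ ↪o ℕ, g = S.orderEmbOfCardLe hq.le := ⟨_, rfl⟩
  have hgS : ∀ j, g j ∈ S := by
    intro j
    rw [hg]
    exact orderEmbOfCardLe_mem S hq.le j
  refine ⟨fun j => J (g j), fun j => h1 _ (hSm _ (hgS j)).1, fun i j hij =>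
    h2 _ (hSm _ (hgS i)).1 _ (hSm _ (hgS j)).1 (fun h => hij (g.injective h)), q, fun I hI => ?_⟩
  have h4 : I.biUnion (fun j => J (g j)) = (I.image g).biUnion J := by
    rw [image_biUnion]
  rw [h4]
  obtain ⟨j0, hj0⟩ : ∃ j0, j0 = I.max' hI := ⟨_, rfl⟩
  have hj0m : j0 ∈ I := by rw [hj0]; exact max'_mem I hI
  have h5 := h3 (I.image g) (g j0) (mem_image_of_mem g hj0m) (hSm _ (hgS j0)).1 (by
    intro i hi
    obtain ⟨i', hi', rfl⟩ := mem_image.1 hi
    refine g.monotone ?_
    rw [hj0]
    exact le_max' I i' hi')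
  rw [h5]
  exact (hSm _ (hgS j0)).2

end Pool.Agent.H34.EV
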