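import Pool.Agent.H34.EV.Sim

/-!
# [H34 EV TWO] One dilation for all nonsingular integer matrices: infinitely many patterns, and the expected order
-/

set_option autoImplicit false

namespace Pool.Agent.H34.EV

open Finset Filter Pool.Agent.H48.EP Pool.Agent.H34.EQ

/-- filters, whatever the decision procedures -/
private theorem cle {α : Type} {s : Finset α} {p q : α → Prop} {dp : DecidablePred p} {dq : DecidablePred q}
    (h : ∀ a ∈ s, p a → q a) : ((@Finset.filter α p dp s).card : ℝ) ≤ ((@Finset.filter α q dq s).card : ℝ) := by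
  refine Nat.cast_le.2 (card_le_card fun a ha => ?_)
  rw [mem_filter] at ha ⊢
  exact ⟨ha.1, h a ha.1 ha.2⟩

open Classical in
/-- **bounded dilations, simultaneously for all nonsingular matrices** -/
theorem sim2 (k r N : ℕ) (hN : 1 ≤ N) : ∃ D n P : ℕ, 0 < P ∧ ∀ c : Fin n → ℕ, (∀ i, 1 ≤ c i) → ∀ ε : ℝ, 0 < ε → ∃ B : ℕ,
    ∀ W s₀ : ℕ, 0 < W → Nat.Coprime s₀ W →
    (∀ (χ : ℕ → Fin r) (z : ℕ) (b : Fin k → ℤ), B ≤ z →
      (((Fintype.piFinset (fun j : Fin k => Ioc (b j) (b j + z))).filter (fun a => ¬ ∃ I : Finset (Fin n), I.Nonempty ∧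
        ∀ M ∈ mats k N, ∃ q : Fin r, {p : ℕ | Pr W s₀ χ q p ∧ ∀ j, ∃ p' : ℕ,
          (p' : ℤ) = p + (P * W * ∑ i ∈ I, c i : ℕ) * M.mulVec a j ∧ Pr W s₀ χ q p'}.Infinite)).card : ℝ) ≤ ε * (z : ℝ) ^ k) ∧
    ∀ A : ℕ, ∃ (d : ℝ) (X₀ : ℕ), 0 < d ∧ ∀ (χ : ℕ → Fin r) (X z : ℕ) (b : Fin k → ℤ), X₀ ≤ X → B ≤ z →
      (z : ℝ) ≤ Real.log X ^ A → (∀ j, |(b j : ℝ)| ≤ Real.log X ^ A) →
      (((Fintype.piFinset (fun j : Fin k => Ioc (b j) (b j + z))).filter (fun a => ¬ ∃ I : Finset (Fin n), I.Nonempty ∧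
        ∀ M ∈ mats k N, ∃ q : Fin r, d * min 1 (z / Real.log X) ^ D * X ≤
          Real.log X ^ (k + 1) *
            (cnt W s₀ χ q (fun j => (P * W * ∑ i ∈ I, c i : ℕ) * M.mulVec a j) X : ℝ))).card : ℝ) ≤ ε * (z : ℝ) ^ k := by
  obtain ⟨D, n₀, P, hP, h⟩ := Pool.Agent.H34.EU.ut2 k r
  obtain ⟨n, hn⟩ := folkman {M // M ∈ mats k N} n₀
  refine ⟨D, n, P, hP, fun c hc ε hε => ?_⟩
  obtain ⟨K, hK⟩ : ∃ K : ℕ, K = 2 * k * N + 1 := ⟨_, rfl⟩
  have hK1 : 1 ≤ K := by omega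
  have hK0 : (0 : ℝ) < K := by exact_mod_cast hK1
  have hK1r : (1 : ℝ) ≤ K := by exact_mod_cast hK1
  obtain ⟨R, hR⟩ : ∃ R : ℝ, R = (((2 ^ n) ^ n₀ : ℕ) : ℝ) * (mats k N).card := ⟨_, rfl⟩
  have hR0 : 0 ≤ R := by rw [hR]; positivity
  obtain ⟨ε', hε'⟩ : ∃ ε' : ℝ, ε' = ε / ((R + 1) * (K : ℝ) ^ k) := ⟨_, rfl⟩
  have hε'0 : 0 < ε' := by rw [hε']; positivity
  have hB : ∀ J : Fin n₀ → Finset (Fin n), ∃ B : ℕ, (∀ j, (J j).Nonempty) → ∀ W s₀ : ℕ, 0 < W → Nat.Coprime s₀ W →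
    (∀ (χ : ℕ → Fin r) (z : ℕ) (b : Fin k → ℤ), B ≤ z →
      (((Fintype.piFinset (fun j : Fin k => Ioc (b j) (b j + z))).filter
        (fun a => ¬ GdI W s₀ χ P (fun j => ∑ i ∈ J j, c i) a)).card : ℝ) ≤ ε' * (z : ℝ) ^ k) ∧
    ∀ A : ℕ, ∃ (d : ℝ) (X₀ : ℕ), 0 < d ∧ ∀ (χ : ℕ → Fin r) (X z : ℕ) (b : Fin k → ℤ), X₀ ≤ X → B ≤ z →
      (z : ℝ) ≤ Real.log X ^ A → (∀ j, |(b j : ℝ)| ≤ Real.log X ^ A) →
      (((Fintype.piFinset (fun j : Fin k => Ioc (b j) (b j + z))).filter (fun a => ¬ ∃ I : Finset (Fin n₀), I.Nonempty ∧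
        ∃ q : Fin r, d * min 1 (z / Real.log X) ^ D * X ≤
          Real.log X ^ (k + 1) * (cnt W s₀ χ q (fun j => (P * W * ∑ j ∈ I, ∑ i ∈ J j, c i : ℕ) * a j) X : ℝ))).card : ℝ) ≤
            ε' * (z : ℝ) ^ k := by
    intro J
    by_cases hJ : ∀ j, (J j).Nonempty
    · obtain ⟨B, hB⟩ := h (fun j => ∑ i ∈ J j, c i) (fun j => by
        obtain ⟨i, hi⟩ := hJ j
        exact (hc i).trans (single_le_sum (f := c) (fun _ _ => Nat.zero_le _) hi)) ε' hε'0
      exact ⟨B, fun _ => hB⟩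
    · exact ⟨0, fun h => absurd h hJ⟩
  choose Bf hBf using hB
  obtain ⟨B, hBd⟩ : ∃ B : ℕ, B = ∑ J, Bf J + 1 := ⟨_, rfl⟩
  have hBle : ∀ J, Bf J + 1 ≤ B := by
    intro J
    have := single_le_sum (f := Bf) (fun _ _ => Nat.zero_le _) (mem_univ J)
    omega
  have hfin : ∀ z : ℕ, R * (ε' * ((K * z : ℕ) : ℝ) ^ k) ≤ ε * (z : ℝ) ^ k := by
    intro z
    have h1 : R * (ε' * ((K * z : ℕ) : ℝ) ^ k) = R / (R + 1) * (ε * (z : ℝ) ^ k) := by
      rw [hε']
      push_cast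
      rw [mul_pow]
      field_simp
    rw [h1]
    refine mul_le_of_le_one_left (by positivity) ?_
    rw [div_le_one (by linarith)]
    linarith
  refine ⟨B, fun W s₀ hW hs₀ => ⟨fun χ z b hz => ?_, fun A => ?_⟩⟩
  · have hz1 : 1 ≤ z := by
      have := hBle (fun _ => ∅)
      omega
    have h1 := sim_count hN hn (fun σ y => ∃ q : Fin r, {p : ℕ | Pr W s₀ χ q p ∧ ∀ j, ∃ p' : ℕ,
          (p' : ℤ) = p + (P * W * σ : ℕ) * y j ∧ Pr W s₀ χ q p'}.Infinite) c (ε' * ((K * z : ℕ) : ℝ) ^ k) z hz1 b (by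
      intro J hJ M hM
      rw [← hK]
      have hzK : Bf J ≤ K * z := by
        have h2 := hBle J
        calc Bf J ≤ z := by omega
          _ ≤ K * z := Nat.le_mul_of_pos_left z hK1
      refine (cle fun a _ ha => ?_).trans ((hBf J hJ W s₀ hW hs₀).1 χ (K * z) (cor N M b z) hzK)
      intro hcon
      obtain ⟨I, hI, q, hq⟩ := hcon
      exact ha ⟨I, hI, q, hq⟩)
    rw [← hR] at h1
    refine (cle fun a _ ha => ?_).trans (h1.trans (hfin z))
    intro hcon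
    obtain ⟨I, hI, hM⟩ := hcon
    exact ha ⟨I, hI, hM⟩
  · have hd : ∀ J : Fin n₀ → Finset (Fin n), ∃ (d : ℝ) (X₀ : ℕ), 0 < d ∧ ((∀ j, (J j).Nonempty) →
      ∀ (χ : ℕ → Fin r) (X z : ℕ) (b : Fin k → ℤ), X₀ ≤ X → Bf J ≤ z →
      (z : ℝ) ≤ Real.log X ^ (A + 1) → (∀ j, |(b j : ℝ)| ≤ Real.log X ^ (A + 1)) →
      (((Fintype.piFinset (fun j : Fin k => Ioc (b j) (b j + z))).filter (fun a => ¬ ∃ I : Finset (Fin n₀), I.Nonempty ∧
        ∃ q : Fin r, d * min 1 (z / Real.log X) ^ D * X ≤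
          Real.log X ^ (k + 1) * (cnt W s₀ χ q (fun j => (P * W * ∑ j ∈ I, ∑ i ∈ J j, c i : ℕ) * a j) X : ℝ))).card : ℝ) ≤
            ε' * (z : ℝ) ^ k) := by
      intro J
      by_cases hJ : ∀ j, (J j).Nonempty
      · obtain ⟨d, X₀, hd, h1⟩ := (hBf J hJ W s₀ hW hs₀).2 (A + 1)
        exact ⟨d, X₀, hd, fun _ => h1⟩
      · exact ⟨1, 0, one_pos, fun h => absurd h hJ⟩
    choose df Xf hdf1 hdf2 using hd
    obtain ⟨J₀, hJ₀⟩ := Finite.exists_min df
    have hlog : Tendsto (fun X : ℕ => Real.log (X : ℝ)) atTop atTop := Real.tendsto_log_atTop.comp tendsto_natCast_atTop_atTop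
    obtain ⟨X1, hX1⟩ := eventually_atTop.1 (hlog.eventually_ge_atTop (K : ℝ))
    refine ⟨df J₀, ∑ J, Xf J + X1, hdf1 J₀, fun χ X z b hX hz hzA hbA => ?_⟩
    have hlX : (K : ℝ) ≤ Real.log X := hX1 X (by omega)
    have hl0 : 0 < Real.log (X : ℝ) := by linarith
    have hz1 : 1 ≤ z := by
      have := hBle (fun _ => ∅)
      omega
    have hz1r : (1 : ℝ) ≤ z := by exact_mod_cast hz1
    have hlA1 : (1 : ℝ) ≤ Real.log X ^ A := one_le_pow₀ (by linarith)
    have h1 := sim_count hN hn (fun σ y => ∃ q : Fin r, df J₀ * min 1 (z / Real.log X) ^ D * X ≤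
          Real.log X ^ (k + 1) * (cnt W s₀ χ q (fun j => (P * W * σ : ℕ) * y j) X : ℝ)) c
          (ε' * ((K * z : ℕ) : ℝ) ^ k) z hz1 b (by
      intro J hJ M hM
      rw [← hK]
      have hzK : Bf J ≤ K * z := by
        have h2 := hBle J
        calc Bf J ≤ z := by omega
          _ ≤ K * z := Nat.le_mul_of_pos_left z hK1
      have hXJ : Xf J ≤ X := by
        have := single_le_sum (f := Xf) (fun _ _ => Nat.zero_le _) (mem_univ J)
        omega
      have hKz : ((K * z : ℕ) : ℝ) ≤ Real.log X ^ (A + 1) := by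
        push_cast
        rw [pow_succ, mul_comm (K : ℝ)]
        exact mul_le_mul hzA hlX hK0.le (by positivity)
      have hcor : ∀ i, |(cor N M b z i : ℝ)| ≤ Real.log X ^ (A + 1) := by
        intro i
        have h2 : |(M.mulVec b i : ℝ)| ≤ k * N * Real.log X ^ A := by
          rw [Matrix.mulVec, dotProduct]
          push_cast
          refine (abs_sum_le_sum_abs _ _).trans ?_
          have h3 : ∀ j ∈ (univ : Finset (Fin k)), |(M i j : ℝ) * (b j : ℝ)| ≤ N * Real.log X ^ A := by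
            intro j _
            rw [abs_mul]
            refine mul_le_mul ?_ (hbA j) (abs_nonneg _) (Nat.cast_nonneg _)
            have h4 := (mem_mats.1 hM).1 i j
            exact_mod_cast h4
          refine (sum_le_card_nsmul _ _ _ h3).trans (le_of_eq ?_)
          rw [card_univ, Fintype.card_fin, nsmul_eq_mul]
          ring
        have h5 : |(cor N M b z i : ℝ)| ≤ |(M.mulVec b i : ℝ)| + (k * N * z + 1) := by
          unfold cor
          push_cast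
          have h6 : (0 : ℝ) ≤ k * N * z + 1 := by positivity
          have h7 := abs_le.1 (le_refl |(M.mulVec b i : ℝ)|)
          rw [abs_le]
          constructor <;> linarith [h7.1, h7.2]
        have h8 : (k : ℝ) * N * z ≤ k * N * Real.log X ^ A := mul_le_mul_of_nonneg_left hzA (by positivity)
        calc |(cor N M b z i : ℝ)| ≤ k * N * Real.log X ^ A + (k * N * Real.log X ^ A + Real.log X ^ A) := by linarith
          _ = K * Real.log X ^ A := by rw [hK]; push_cast; ring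
          _ ≤ Real.log X ^ (A + 1) := by
              rw [pow_succ, mul_comm (K : ℝ)]
              exact mul_le_mul_of_nonneg_left hlX (by positivity)
      refine (cle fun a _ ha => ?_).trans (hdf2 J hJ χ X (K * z) (cor N M b z) hXJ hzK hKz hcor)
      intro hcon
      obtain ⟨I, hI, q, hq⟩ := hcon
      refine ha ⟨I, hI, q, le_trans ?_ hq⟩
      have h9 : min 1 ((z : ℝ) / Real.log X) ≤ min 1 (((K * z : ℕ) : ℝ) / Real.log X) := by
        refine min_le_min le_rfl (div_le_div_of_nonneg_right ?_ hl0.le)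
        push_cast
        nlinarith
      have h10 : 0 ≤ min 1 ((z : ℝ) / Real.log X) := le_min zero_le_one (by positivity)
      refine mul_le_mul_of_nonneg_right ?_ (Nat.cast_nonneg _)
      exact mul_le_mul (hJ₀ J) (pow_le_pow_left₀ h10 h9 D) (pow_nonneg h10 D) (hdf1 J).le)
    rw [← hR] at h1
    refine (cle fun a _ ha => ?_).trans (h1.trans (hfin z))
    intro hcon
    obtain ⟨I, hI, hM⟩ := hcon
    exact ha ⟨I, hI, hM⟩

end Pool.Agent.H34.EV
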